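import Pool.Agent.Q194.NH.Core

/-!
# From the linear algebra to exponential sums
-/

namespace Q194.NH

open Filter Topology Finset Polynomial

/-- `z₁` and `z₂` are independent -/
def Indep (z w : ℂ) : Prop := ∀ m n : ℤ, z ^ m * w ^ n = 1 → m = 0 ∧ n = 0

lemma common {ι : Type*} (F : Finset ι) (P : ι → ℕ → Prop) (hmul : ∀ i a b, P i a → P i (a * b))
    (h : ∀ i ∈ F, ∃ a, 0 < a ∧ P i a) : ∃ N, 0 < N ∧ ∀ i ∈ F, P i N := by
  classical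
  induction F using Finset.induction_on with
  | empty => exact ⟨1, one_pos, fun i hi => absurd hi (notMem_empty i)⟩
  | insert a F ha ih =>
    obtain ⟨N, hN, hP⟩ := ih fun i hi => h i (mem_insert_of_mem hi)
    obtain ⟨b, hb, hPb⟩ := h a (mem_insert_self _ _)
    refine ⟨N * b, Nat.mul_pos hN hb, fun i hi => ?_⟩
    rcases mem_insert.1 hi with rfl | hi
    · rw [mul_comm]; exact hmul _ _ _ hPb
    · exact hmul _ _ _ (hP i hi)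

/-- dependence on a non-torsion element -/
lemma dep_of {w v : ℂ} (hw : ‖w‖ = 1) (hv : ‖v‖ = 1) (hwt : ∀ m : ℕ, 0 < m → w ^ m ≠ 1)
    (h : ¬ Indep w v) : ∃ a : ℕ, 0 < a ∧ ∃ n : ℤ, v ^ a = w ^ n := by
  unfold Indep at h
  push Not at h
  obtain ⟨m, n, h1, h2⟩ := h
  have hw0 : w ≠ 0 := by rintro rfl; simp at hw
  have hv0 : v ≠ 0 := by rintro rfl; simp at hv
  have hn : n ≠ 0 := by
    rintro rfl
    rw [zpow_zero, mul_one] at h1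
    have hm : m ≠ 0 := fun hm => h2 hm rfl
    have h3 : w ^ m.natAbs = 1 := by
      rcases Int.natAbs_eq m with h | h
      · rw [h, zpow_natCast] at h1; exact h1
      · rw [h, zpow_neg, zpow_natCast, inv_eq_one] at h1; exact h1
    exact hwt _ (Int.natAbs_pos.2 hm) h3
  rcases lt_or_gt_of_ne hn with hneg | hpos
  · refine ⟨n.natAbs, Int.natAbs_pos.2 hn, m, ?_⟩
    have e : n = -(n.natAbs : ℤ) := by omega
    rw [e, zpow_neg, zpow_natCast] at h1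
    have h4 : v ^ n.natAbs ≠ 0 := pow_ne_zero _ hv0
    field_simp at h1
    exact h1.symm
  · refine ⟨n.natAbs, Int.natAbs_pos.2 hn, -m, ?_⟩
    have e : n = (n.natAbs : ℤ) := by omega
    rw [e, zpow_natCast] at h1
    rw [zpow_neg]
    exact eq_inv_of_mul_eq_one_right h1

lemma norm_arg {z : ℂ} (hz : z ≠ 0) : ‖z / ‖z‖‖ = 1 := by
  rw [norm_div, Complex.norm_real, norm_norm, div_self (norm_ne_zero_iff.2 hz)]

/-- the choice of the parameters -/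
lemma params (A : Finset ℂ) (hA : ∀ μ ∈ A, 1 ≤ ‖μ‖)
    (n1 : ∀ μ ∈ A, ∀ ν ∈ A, ‖μ‖ = ‖ν‖ → 1 < ‖μ‖ → ¬ Indep (μ / ‖μ‖) (ν / ‖ν‖))
    (n2 : ∀ μ ∈ A, ∀ ν ∈ A, ‖μ‖ = 1 → ‖ν‖ = 1 → ¬ Indep μ ν)
    (n3 : ∀ μ ∈ A, ∀ ν ∈ A, ∀ κ ∈ A, ‖μ‖ = ‖ν‖ → ‖κ‖ < ‖μ‖ → 1 < ‖κ‖ →
      (∀ m : ℕ, 0 < m → (μ / ν) ^ m ≠ 1) → ¬ Indep (μ / ‖μ‖) (κ / ‖κ‖))
    (n4 : ∀ μ ∈ A, ∀ ν ∈ A, ∀ κ ∈ A, ‖μ‖ = ‖ν‖ → 1 < ‖μ‖ → ‖κ‖ = 1 →
      (∀ m : ℕ, 0 < m → (μ / ν) ^ m ≠ 1) → ¬ Indep (μ / ‖μ‖) κ) :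
    ∃ r : ℝ, 1 ≤ r ∧ ∃ w1 : ℂ, ‖w1‖ = 1 ∧ ∃ N : ℕ, 0 < N ∧
      (∀ μ ∈ A, ‖μ‖ ≤ r → ∃ n : ℤ, (μ / ‖μ‖) ^ N = w1 ^ n) ∧
      (∀ μ ∈ A, ∀ ν ∈ A, r < ‖μ‖ → ‖μ‖ = ‖ν‖ → μ ^ N = ν ^ N) := by
  classical
  have hne : ∀ μ ∈ A, μ ≠ 0 := by
    rintro μ hμ rfl
    have := hA 0 hμ
    rw [norm_zero] at this
    linarith
  -- reduction to separate exponents
  suffices h : ∃ r : ℝ, 1 ≤ r ∧ ∃ w1 : ℂ, ‖w1‖ = 1 ∧
      (∀ μ ∈ A, ‖μ‖ ≤ r → ∃ a : ℕ, 0 < a ∧ ∃ n : ℤ, (μ / ‖μ‖) ^ a = w1 ^ n) ∧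
      (∀ μ ∈ A, ∀ ν ∈ A, r < ‖μ‖ → ‖μ‖ = ‖ν‖ → ∃ a : ℕ, 0 < a ∧ μ ^ a = ν ^ a) by
    obtain ⟨r, hr, w1, hw1, h1, h2⟩ := h
    obtain ⟨N1, hN1, hP1⟩ := common A (fun μ a => ‖μ‖ ≤ r → ∃ n : ℤ, (μ / ‖μ‖) ^ a = w1 ^ n)
      (fun μ a b h hμ => by
        obtain ⟨n, hn⟩ := h hμ
        exact ⟨n * b, by rw [pow_mul, hn, zpow_mul, zpow_natCast]⟩)
      (fun μ hμ => by
        by_cases hle : ‖μ‖ ≤ r
        · obtain ⟨a, ha, h⟩ := h1 μ hμ hle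
          exact ⟨a, ha, fun _ => h⟩
        · exact ⟨1, one_pos, fun h => absurd h hle⟩)
    obtain ⟨N2, hN2, hP2⟩ := common (A ×ˢ A)
      (fun x a => r < ‖x.1‖ → ‖x.1‖ = ‖x.2‖ → x.1 ^ a = x.2 ^ a)
      (fun x a b h h3 h4 => by rw [pow_mul, pow_mul, h h3 h4])
      (fun x hx => by
        by_cases hle : r < ‖x.1‖ ∧ ‖x.1‖ = ‖x.2‖
        · obtain ⟨a, ha, h⟩ := h2 x.1 (mem_product.1 hx).1 x.2 (mem_product.1 hx).2 hle.1 hle.2
          exact ⟨a, ha, fun _ _ => h⟩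
        · exact ⟨1, one_pos, fun h h' => absurd ⟨h, h'⟩ hle⟩)
    refine ⟨r, hr, w1, hw1, N1 * N2, Nat.mul_pos hN1 hN2, fun μ hμ hle => ?_,
      fun μ hμ ν hν h3 h4 => ?_⟩
    · obtain ⟨n, hn⟩ := hP1 μ hμ hle
      exact ⟨n * N2, by rw [pow_mul, hn, zpow_mul, zpow_natCast]⟩
    · rw [mul_comm, pow_mul, pow_mul, hP2 (μ, ν) (mem_product.2 ⟨hμ, hν⟩) h3 h4]
  by_cases hI : ∃ μ ∈ A, 1 < ‖μ‖ ∧ ∃ ν ∈ A, ‖μ‖ = ‖ν‖ ∧ ∀ m : ℕ, 0 < m → (μ / ν) ^ m ≠ 1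
  · -- Case I
    obtain ⟨μ0, hμ0, hmax⟩ := exists_max_image
      (A.filter fun μ => 1 < ‖μ‖ ∧ ∃ ν ∈ A, ‖μ‖ = ‖ν‖ ∧ ∀ m : ℕ, 0 < m → (μ / ν) ^ m ≠ 1)
      (fun μ => ‖μ‖) (by
        obtain ⟨μ, hμ, h⟩ := hI
        exact ⟨μ, mem_filter.2 ⟨hμ, h⟩⟩)
    obtain ⟨hμA, hμ1, ν0, hν0, hμν, htor⟩ := mem_filter.1 hμ0
    -- one of the two is not torsion
    obtain ⟨α, β, hα, hβ, hα1, hαβ, hquot, hαt, hαn⟩ : ∃ α β : ℂ, α ∈ A ∧ β ∈ A ∧ 1 < ‖α‖ ∧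
        ‖α‖ = ‖β‖ ∧ (∀ m : ℕ, 0 < m → (α / β) ^ m ≠ 1) ∧
        (∀ m : ℕ, 0 < m → (α / ‖α‖) ^ m ≠ 1) ∧ ‖α‖ = ‖μ0‖ := by
      by_cases ht : ∀ m : ℕ, 0 < m → (μ0 / ‖μ0‖) ^ m ≠ 1
      · exact ⟨μ0, ν0, hμA, hν0, hμ1, hμν, htor, ht, rfl⟩
      · refine ⟨ν0, μ0, hν0, hμA, by rw [← hμν]; exact hμ1, hμν.symm, fun m hm h => ?_, ?_,
          hμν.symm⟩
        · refine htor m hm ?_
          rw [← inv_div, inv_pow, h, inv_one]
        · push Not at ht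
          obtain ⟨a, ha, hat⟩ := ht
          intro m hm h
          refine htor (a * m) (Nat.mul_pos ha hm) ?_
          have e : μ0 / ν0 = (μ0 / ‖μ0‖) / (ν0 / ‖ν0‖) := by
            have := norm_ne_zero_iff.2 (hne μ0 hμA)
            have h5 : ((‖μ0‖ : ℝ) : ℂ) ≠ 0 := Complex.ofReal_ne_zero.2 this
            have h6 := hne ν0 hν0
            rw [← hμν]
            field_simp
          rw [e, div_pow, pow_mul, hat, one_pow, mul_comm, pow_mul, h, one_pow, div_one]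
    refine ⟨‖α‖, hα1.le, α / ‖α‖, norm_arg (hne α hα), fun μ hμ hle => ?_,
      fun μ hμ ν hν hlt heq => ?_⟩
    · refine dep_of (norm_arg (hne α hα)) (norm_arg (hne μ hμ)) hαt ?_
      rcases eq_or_lt_of_le hle with h | h
      · exact n1 α hα μ hμ h.symm hα1
      · rcases eq_or_lt_of_le (hA μ hμ) with h' | h'
        · have := n4 α hα β hβ μ hμ hαβ hα1 h'.symm hquot
          rw [← h', Complex.ofReal_one, div_one]
          exact this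
        · exact n3 α hα β hβ μ hμ hαβ h h' hquot
    · by_contra hcon
      push Not at hcon
      have h7 := hmax μ (mem_filter.2 ⟨hμ, by linarith, ν, hν, heq, fun m hm h => by
        refine hcon m hm ?_
        rw [div_pow, div_eq_one_iff_eq (pow_ne_zero _ (hne ν hν))] at h
        exact h⟩)
      linarith
  · -- Case II
    push Not at hI
    by_cases ht : ∃ w ∈ A, ‖w‖ = 1 ∧ ∀ m : ℕ, 0 < m → w ^ m ≠ 1
    · obtain ⟨w, hw, hw1, hwt⟩ := ht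
      refine ⟨1, le_rfl, w, hw1, fun μ hμ hle => ?_, fun μ hμ ν hν hlt heq => ?_⟩
      · have h1 : ‖μ‖ = 1 := le_antisymm hle (hA μ hμ)
        rw [h1, Complex.ofReal_one, div_one]
        exact dep_of hw1 h1 hwt (n2 w hw μ hμ hw1 h1)
      · obtain ⟨m, hm, h⟩ := hI μ hμ hlt ν hν heq
        refine ⟨m, hm, ?_⟩
        rw [div_pow, div_eq_one_iff_eq (pow_ne_zero _ (hne ν hν))] at h
        exact h
    · push Not at ht
      refine ⟨1, le_rfl, 1, norm_one, fun μ hμ hle => ?_, fun μ hμ ν hν hlt heq => ?_⟩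
      · have h1 : ‖μ‖ = 1 := le_antisymm hle (hA μ hμ)
        rw [h1, Complex.ofReal_one, div_one]
        obtain ⟨m, hm, h⟩ := ht μ hμ h1
        exact ⟨m, hm, 0, by rw [h, zpow_zero]⟩
      · obtain ⟨m, hm, h⟩ := hI μ hμ hlt ν hν heq
        refine ⟨m, hm, ?_⟩
        rw [div_pow, div_eq_one_iff_eq (pow_ne_zero _ (hne ν hν))] at h
        exact h

section

variable {V : Type*} [AddCommGroup V] [Module ℂ V] [FiniteDimensional ℂ V] (T : Module.End ℂ V)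

/-- the kernel condition -/
def Defective (μ : ℂ) : Prop :=
  LinearMap.ker ((T - μ • (1 : Module.End ℂ V)) ^ 2) ≠ LinearMap.ker (T - μ • (1 : Module.End ℂ V))

omit [FiniteDimensional ℂ V] in
lemma pow_apply_gen (f : V →ₗ[ℂ] ℂ) {N0 : ℕ} {μ : ℂ} (hμ : μ ≠ 0) {v : V}
    (hv : ∀ i, N0 ≤ i → ((T - μ • (1 : Module.End ℂ V)) ^ i) v = 0) (k : ℕ) :
    f ((T ^ k) v) = μ ^ k * ∑ i ∈ range N0, ((k.choose i : ℕ) : ℂ) *
      ((μ ^ i)⁻¹ * f (((T - μ • (1 : Module.End ℂ V)) ^ i) v)) := by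
  set D := T - μ • (1 : Module.End ℂ V) with hD
  have hT : T = D + μ • (1 : Module.End ℂ V) := by rw [hD]; abel
  have hcomm : Commute D (μ • (1 : Module.End ℂ V)) := (Commute.one_right D).smul_right μ
  have e1 : (T ^ k) v = ∑ i ∈ range (k + 1), ((k.choose i : ℕ) : ℂ) • (μ ^ (k - i)) • (D ^ i) v := by
    conv_lhs => rw [hT]
    rw [hcomm.add_pow, LinearMap.sum_apply]
    refine sum_congr rfl fun i _ => ?_
    rw [_root_.smul_pow, one_pow, mul_smul_comm, mul_one, smul_mul_assoc, LinearMap.smul_apply,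
      Module.End.mul_apply, ← Nat.smul_one_eq_cast, LinearMap.smul_apply, Module.End.one_apply,
      map_nsmul, ← Nat.cast_smul_eq_nsmul ℂ, smul_comm]
  rw [e1, map_sum]
  have e2 : ∀ i, f (((k.choose i : ℕ) : ℂ) • (μ ^ (k - i)) • (D ^ i) v) =
      μ ^ k * (((k.choose i : ℕ) : ℂ) * ((μ ^ i)⁻¹ * f ((D ^ i) v))) := by
    intro i
    rw [map_smul, map_smul, smul_eq_mul, smul_eq_mul]
    by_cases hik : i ≤ k
    · rw [pow_sub₀ μ hμ hik]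
      ring
    · rw [Nat.choose_eq_zero_of_lt (not_le.1 hik)]
      simp
  rw [sum_congr rfl fun i _ => e2 i, ← mul_sum]
  congr 1
  -- both sums agree
  have e3 : ∀ K, N0 ≤ K → ∑ i ∈ range K, ((k.choose i : ℕ) : ℂ) * ((μ ^ i)⁻¹ * f ((D ^ i) v)) =
      ∑ i ∈ range N0, ((k.choose i : ℕ) : ℂ) * ((μ ^ i)⁻¹ * f ((D ^ i) v)) := by
    intro K hK
    symm
    refine sum_subset (range_mono hK) fun i _ hi => ?_
    rw [mem_range, not_lt] at hi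
    rw [hv i hi, map_zero, mul_zero, mul_zero]
  have e4 : ∀ K, k + 1 ≤ K → ∑ i ∈ range K, ((k.choose i : ℕ) : ℂ) * ((μ ^ i)⁻¹ * f ((D ^ i) v)) =
      ∑ i ∈ range (k + 1), ((k.choose i : ℕ) : ℂ) * ((μ ^ i)⁻¹ * f ((D ^ i) v)) := by
    intro K hK
    symm
    refine sum_subset (range_mono hK) fun i _ hi => ?_
    rw [mem_range, not_lt] at hi
    rw [Nat.choose_eq_zero_of_lt (by omega)]
    simp
  rw [← e3 (max N0 (k + 1)) (le_max_left _ _), e4 _ (le_max_right _ _)]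

lemma bounded_of_tendsto {v : ℕ → ℂ} (h : Tendsto (fun k => ‖v k‖) atTop (𝓝 0)) :
    ∃ M : ℝ, ∀ k, ‖v k‖ ≤ M := by
  obtain ⟨M, hM⟩ := h.bddAbove_range
  exact ⟨M, fun k => hM ⟨k, rfl⟩⟩

omit [FiniteDimensional ℂ V] in
/-- the contribution of the small or non-defective eigenvalues is bounded -/
lemma bounded_part (f : V →ₗ[ℂ] ℂ) {N0 : ℕ} {μ : ℂ} {v : V}
    (hv : ∀ i, N0 ≤ i → ((T - μ • (1 : Module.End ℂ V)) ^ i) v = 0)
    (hμ : ‖μ‖ < 1 ∨ (‖μ‖ = 1 ∧ ¬ Defective T μ)) :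
    ∃ M : ℝ, ∀ k, ‖f ((T ^ k) v)‖ ≤ M := by
  rcases hμ with hlt | ⟨h1, hnd⟩
  · by_cases h0 : μ = 0
    · subst h0
      refine bounded_of_tendsto ?_
      refine (tendsto_const_nhds (x := (0 : ℝ))).congr' ?_
      filter_upwards [eventually_ge_atTop N0] with k hk
      have := hv k hk
      rw [zero_smul, sub_zero] at this
      rw [this, map_zero, norm_zero]
    · obtain ⟨p, hp⟩ := hh_poly N0 (fun μ i => (μ ^ i)⁻¹ *
        f (((T - μ • (1 : Module.End ℂ V)) ^ i) v)) 1 0 μ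
      have h2 := poly_tendsto p (norm_nonneg μ) hlt
      refine bounded_of_tendsto ?_
      refine h2.congr fun k => ?_
      rw [pow_apply_gen T f h0 hv k, norm_mul, norm_pow, mul_comm, ← hp k]
      simp only [hh, one_mul, add_zero]
  · unfold Defective at hnd
    push Not at hnd
    set D := T - μ • (1 : Module.End ℂ V) with hD
    have h3 : D v = 0 := by
      have h4 := Module.End.ker_pow_constant (f := D) (k := 1) (by
        rw [pow_one]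
        exact hnd.symm) N0
      have h5 : v ∈ LinearMap.ker (D ^ (1 + N0)) := by
        rw [LinearMap.mem_ker]
        exact hv _ (by omega)
      rw [← h4, pow_one, LinearMap.mem_ker] at h5
      exact h5
    have h6 : T v = μ • v := by
      rw [hD, LinearMap.sub_apply, LinearMap.smul_apply, Module.End.one_apply, sub_eq_zero] at h3
      exact h3
    have h7 : ∀ k : ℕ, (T ^ k) v = μ ^ k • v := by
      intro k
      induction k with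
      | zero => simp
      | succ k ih => rw [pow_succ', Module.End.mul_apply, ih, map_smul, h6, smul_smul, pow_succ]
    refine ⟨‖f v‖, fun k => le_of_eq ?_⟩
    rw [h7, map_smul, norm_smul, norm_pow, h1, one_pow, one_mul]

/-- The linear algebra form of the theorem. -/
theorem alg (x : V) (f : V →ₗ[ℂ] ℂ) (hdense : Dense (Set.range fun k : ℕ => f ((T ^ k) x))) :
    (∃ μ ν, T.HasEigenvalue μ ∧ T.HasEigenvalue ν ∧ ‖μ‖ = ‖ν‖ ∧ 1 < ‖μ‖ ∧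
      Indep (μ / ‖μ‖) (ν / ‖ν‖)) ∨
    (∃ μ ν : ℂ, ‖μ‖ = 1 ∧ ‖ν‖ = 1 ∧ Indep μ ν ∧ Defective T μ ∧ Defective T ν) ∨
    (∃ μ ν κ, T.HasEigenvalue μ ∧ T.HasEigenvalue ν ∧ T.HasEigenvalue κ ∧ ‖μ‖ = ‖ν‖ ∧
      ‖κ‖ < ‖μ‖ ∧ 1 < ‖κ‖ ∧ (∀ m : ℕ, 0 < m → (μ / ν) ^ m ≠ 1) ∧ Indep (μ / ‖μ‖) (κ / ‖κ‖)) ∨
    (∃ μ ν κ, T.HasEigenvalue μ ∧ T.HasEigenvalue ν ∧ ‖κ‖ = 1 ∧ Defective T κ ∧ ‖μ‖ = ‖ν‖ ∧
      1 < ‖μ‖ ∧ (∀ m : ℕ, 0 < m → (μ / ν) ^ m ≠ 1) ∧ Indep (μ / ‖μ‖) κ) := by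
  classical
  by_contra hcon
  push Not at hcon
  obtain ⟨c1, c2, c3, c4⟩ := hcon
  -- the decomposition
  have hx : x ∈ ⨆ μ, T.maxGenEigenspace μ := by
    rw [Module.End.iSup_maxGenEigenspace_eq_top]
    trivial
  obtain ⟨g, hg, hsum⟩ := (Submodule.mem_iSup_iff_exists_finsupp _ _).1 hx
  set N0 := Module.finrank ℂ V with hN0
  have hv : ∀ μ, ∀ i, N0 ≤ i → ((T - μ • (1 : Module.End ℂ V)) ^ i) (g μ) = 0 := by
    intro μ i hi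
    have h := hg μ
    rw [Module.End.maxGenEigenspace_eq_genEigenspace_finrank, Module.End.mem_genEigenspace_nat,
      LinearMap.mem_ker] at h
    rw [← Nat.sub_add_cancel hi, pow_add, Module.End.mul_apply, h, map_zero]
  have heig : ∀ μ ∈ g.support, T.HasEigenvalue μ := by
    intro μ hμ
    have h : T.HasUnifEigenvalue μ ⊤ := by
      intro hbot
      have h2 := hg μ
      rw [Module.End.maxGenEigenspace, hbot, Submodule.mem_bot] at h2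
      exact Finsupp.mem_support_iff.1 hμ h2
    exact h.lt zero_lt_one
  set A : Finset ℂ := g.support.filter fun μ => 1 < ‖μ‖ ∨ (‖μ‖ = 1 ∧ Defective T μ) with hA
  have hA1 : ∀ μ ∈ A, 1 ≤ ‖μ‖ := by
    intro μ hμ
    rcases (mem_filter.1 hμ).2 with h | ⟨h, _⟩
    · exact h.le
    · exact h.ge
  have hAe : ∀ μ ∈ A, T.HasEigenvalue μ := fun μ hμ => heig μ (mem_filter.1 hμ).1
  have hAd : ∀ μ ∈ A, ‖μ‖ = 1 → Defective T μ := by
    intro μ hμ h1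
    rcases (mem_filter.1 hμ).2 with h | ⟨_, h⟩
    · rw [h1] at h; exact absurd h (lt_irrefl _)
    · exact h
  obtain ⟨r, hr, w1, hw1, N, hN, h1, h2⟩ := params A hA1
    (fun μ hμ ν hν heq hlt => c1 μ ν (hAe μ hμ) (hAe ν hν) heq hlt)
    (fun μ hμ ν hν e1 e2 hind => c2 μ ν e1 e2 hind (hAd μ hμ e1) (hAd ν hν e2))
    (fun μ hμ ν hν κ hκ e1 e2 e3 e4 => c3 μ ν κ (hAe μ hμ) (hAe ν hν) (hAe κ hκ) e1 e2 e3 e4)
    (fun μ hμ ν hν κ hκ e1 e2 e3 e4 => c4 μ ν κ (hAe μ hμ) (hAe ν hν) e3 (hAd κ hκ e3) e1 e2 e4)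
  -- the bounded part
  have hbd : ∀ μ ∈ g.support.filter (fun μ => ¬ (1 < ‖μ‖ ∨ (‖μ‖ = 1 ∧ Defective T μ))),
      ∃ M : ℝ, ∀ k, ‖f ((T ^ k) (g μ))‖ ≤ M := by
    intro μ hμ
    refine bounded_part T f (hv μ) ?_
    have h3 := (mem_filter.1 hμ).2
    rw [not_or, not_and, not_lt] at h3
    rcases lt_or_eq_of_le h3.1 with h | h
    · exact Or.inl h
    · exact Or.inr ⟨h, h3.2 h⟩
  choose! Mb hMb using hbd
  set B : ℕ → ℂ := fun k => ∑ μ ∈ g.support.filter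
    (fun μ => ¬ (1 < ‖μ‖ ∨ (‖μ‖ = 1 ∧ Defective T μ))), f ((T ^ k) (g μ)) with hB
  set d : ℂ → ℕ → ℂ := fun μ i => (μ ^ i)⁻¹ * f (((T - μ • (1 : Module.End ℂ V)) ^ i) (g μ))
    with hd
  have hBM : ∀ k, ‖B k‖ ≤ ∑ μ ∈ g.support.filter
      (fun μ => ¬ (1 < ‖μ‖ ∨ (‖μ‖ = 1 ∧ Defective T μ))), Mb μ := fun k =>
    (norm_sum_le _ _).trans (sum_le_sum fun μ hμ => hMb μ hμ k)
  refine core (A := A) (N0 := N0) (d := d) (B := B) hBM hr hw1 hA1 h1 h2 hN ?_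
  convert hdense using 2
  funext k
  rw [← hsum, Finsupp.sum, map_sum, map_sum, uu,
    ← sum_filter_add_sum_filter_not g.support (fun μ => 1 < ‖μ‖ ∨ (‖μ‖ = 1 ∧ Defective T μ))]
  congr 1
  refine sum_congr rfl fun μ hμ => ?_
  have hμ0 : μ ≠ 0 := by
    rintro rfl
    have := hA1 0 hμ
    rw [norm_zero] at this
    linarith
  rw [pow_apply_gen T f hμ0 (hv μ) k]
  rfl

end

end Q194.NH
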