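import Mathlib

/-!
# Zero-free discs for polynomials in `z` and its conjugate
-/

namespace Q194.NH

open Filter Topology Finset

lemma circle_infinite : {ζ : ℂ | ‖ζ‖ = 1}.Infinite := by
  refine Set.infinite_of_injOn_mapsTo (s := Set.Ioo (0 : ℝ) 1)
    (f := fun x : ℝ => (⟨x, √(1 - x ^ 2)⟩ : ℂ)) ?_ ?_ (Set.Ioo_infinite one_pos)
  · intro x _ y _ h
    exact congrArg Complex.re h
  · intro x hx
    show ‖(⟨x, √(1 - x ^ 2)⟩ : ℂ)‖ = 1
    rw [Complex.norm_def, Complex.normSq_mk, Real.mul_self_sqrt (by nlinarith [hx.1, hx.2])]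
    rw [Real.sqrt_eq_one]
    ring

/-- the value of a polynomial in `z` and its conjugate -/
noncomputable def GG {m : ℕ} (γ : Fin (m + 1) × Fin (m + 1) → ℂ) (z : ℂ) : ℂ :=
  ∑ i, γ i * (z ^ (i.1 : ℕ) * (starRingEnd ℂ z) ^ (i.2 : ℕ))

/-- the top degree part -/
noncomputable def top {m : ℕ} (γ : Fin (m + 1) × Fin (m + 1) → ℂ) (s : ℕ) (z : ℂ) : ℂ :=
  ∑ i : Fin (m + 1) × Fin (m + 1), if (i.1 : ℕ) + i.2 = s then
    γ i * (z ^ (i.1 : ℕ) * (starRingEnd ℂ z) ^ (i.2 : ℕ)) else 0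

lemma exists_deg {m : ℕ} (γ : Fin (m + 1) × Fin (m + 1) → ℂ) (hγ : ∃ i, γ i ≠ 0) :
    ∃ s : ℕ, (∃ i, γ i ≠ 0 ∧ (i.1 : ℕ) + i.2 = s) ∧ ∀ i, γ i ≠ 0 → (i.1 : ℕ) + i.2 ≤ s := by
  classical
  obtain ⟨i0, hi0⟩ := hγ
  obtain ⟨i, hi, hmax⟩ := exists_max_image (univ.filter fun i => γ i ≠ 0)
    (fun i => (i.1 : ℕ) + i.2) ⟨i0, by simp [hi0]⟩
  refine ⟨(i.1 : ℕ) + i.2, ⟨i, (mem_filter.1 hi).2, rfl⟩, fun j hj => hmax j (by simp [hj])⟩

/-- the top part has finitely many zeros on the circle -/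
lemma top_finite {m : ℕ} (γ : Fin (m + 1) × Fin (m + 1) → ℂ) (s : ℕ)
    (h : ∃ i, γ i ≠ 0 ∧ (i.1 : ℕ) + i.2 = s) : {ζ : ℂ | ‖ζ‖ = 1 ∧ top γ s ζ = 0}.Finite := by
  classical
  set P : Polynomial ℂ := ∑ i : Fin (m + 1) × Fin (m + 1), if (i.1 : ℕ) + i.2 = s then
    Polynomial.monomial (2 * (i.1 : ℕ)) (γ i) else 0 with hP
  have hP0 : P ≠ 0 := by
    obtain ⟨i, hi, his⟩ := h
    intro h0
    have h1 : P.coeff (2 * (i.1 : ℕ)) = γ i := by
      rw [hP, Polynomial.finset_sum_coeff, sum_eq_single i]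
      · rw [if_pos his, Polynomial.coeff_monomial, if_pos rfl]
      · intro j _ hji
        split_ifs with hj
        · rw [Polynomial.coeff_monomial, if_neg]
          intro h2
          apply hji
          have h3 : (j.1 : ℕ) = i.1 := by omega
          have h4 : (j.2 : ℕ) = i.2 := by omega
          exact Prod.ext (Fin.ext h3) (Fin.ext h4)
        · exact Polynomial.coeff_zero _
      · intro h2
        exact absurd (mem_univ _) h2
    rw [h0, Polynomial.coeff_zero] at h1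
    exact hi h1.symm
  refine (P.rootSet_finite ℂ).subset ?_
  rintro ζ ⟨hζ, h0⟩
  rw [Polynomial.mem_rootSet]
  refine ⟨hP0, ?_⟩
  have hζ0 : ζ ≠ 0 := by
    rintro rfl
    simp at hζ
  have hconj : starRingEnd ℂ ζ = ζ⁻¹ := by
    rw [Complex.inv_def, Complex.normSq_eq_norm_sq, hζ]
    simp
  have e : Polynomial.aeval ζ P = ζ ^ s * top γ s ζ := by
    rw [hP, map_sum, top, mul_sum]
    refine sum_congr rfl fun i _ => ?_
    split_ifs with his
    · rw [Polynomial.aeval_monomial, hconj, ← his]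
      have : ζ ^ ((i.1 : ℕ) + i.2) * (γ i * (ζ ^ (i.1 : ℕ) * ζ⁻¹ ^ (i.2 : ℕ))) =
          γ i * ζ ^ (2 * (i.1 : ℕ)) * (ζ ^ (i.2 : ℕ) * ζ⁻¹ ^ (i.2 : ℕ)) := by ring
      rw [this, ← mul_pow, mul_inv_cancel₀ hζ0, one_pow, mul_one]
      rfl
    · rw [map_zero, mul_zero]
  rw [e, h0, mul_zero]

/-- scaling -/
lemma top_limit {m : ℕ} (γ : Fin (m + 1) × Fin (m + 1) → ℂ) (s : ℕ)
    (hs : ∀ i, γ i ≠ 0 → (i.1 : ℕ) + i.2 ≤ s) {ζ : ℂ} (n : ℕ → ℕ) (hn : Tendsto n atTop atTop)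
    (z : ℕ → ℂ) (M : ℝ) (hz : ∀ j, ‖z j - n j * ζ‖ ≤ M) (h0 : ∀ j, GG γ (z j) = 0) :
    top γ s ζ = 0 := by
  have hn' : Tendsto (fun j => (n j : ℝ)) atTop atTop := tendsto_natCast_atTop_atTop.comp hn
  have hinv : Tendsto (fun j => ((n j : ℝ))⁻¹) atTop (𝓝 0) := tendsto_inv_atTop_zero.comp hn'
  have hinvC : Tendsto (fun j => ((n j : ℂ))⁻¹) atTop (𝓝 0) := by
    have := (Complex.continuous_ofReal.tendsto 0).comp hinv
    rw [Complex.ofReal_zero] at this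
    refine this.congr fun j => ?_
    simp
  have hzn : Tendsto (fun j => z j / n j) atTop (𝓝 ζ) := by
    rw [tendsto_iff_norm_sub_tendsto_zero]
    have h1 : Tendsto (fun j => M * ((n j : ℝ))⁻¹) atTop (𝓝 0) := by
      have := hinv.const_mul M
      rwa [mul_zero] at this
    refine squeeze_zero' (Eventually.of_forall fun _ => norm_nonneg _) ?_ h1
    filter_upwards [hn.eventually (eventually_ge_atTop 1)] with j hj
    have hj0 : (n j : ℂ) ≠ 0 := by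
      rw [Nat.cast_ne_zero]; omega
    have e : z j / n j - ζ = (z j - n j * ζ) * ((n j : ℂ))⁻¹ := by
      field_simp
    rw [e, norm_mul, norm_inv, Complex.norm_natCast]
    exact mul_le_mul_of_nonneg_right (hz j) (by positivity)
  have hznc : Tendsto (fun j => starRingEnd ℂ (z j / n j)) atTop (𝓝 (starRingEnd ℂ ζ)) :=
    (Complex.continuous_conj.tendsto ζ).comp hzn
  have hlim : Tendsto (fun j => ∑ i, γ i * ((z j / n j) ^ (i.1 : ℕ) *
      (starRingEnd ℂ (z j / n j)) ^ (i.2 : ℕ)) * ((n j : ℂ))⁻¹ ^ (s - ((i.1 : ℕ) + i.2))) atTop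
      (𝓝 (top γ s ζ)) := by
    unfold top
    refine tendsto_finsetSum _ fun i _ => ?_
    by_cases hi : γ i = 0
    · simp only [hi, zero_mul, ite_self]
      exact tendsto_const_nhds
    · have h1 := (((hzn.pow (i.1 : ℕ)).mul (hznc.pow (i.2 : ℕ))).const_mul (γ i)).mul
        (hinvC.pow (s - ((i.1 : ℕ) + i.2)))
      by_cases his : (i.1 : ℕ) + i.2 = s
      · rw [if_pos his]
        rw [his, Nat.sub_self, pow_zero, mul_one] at h1
        refine h1.congr fun j => ?_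
        rw [his, Nat.sub_self, pow_zero, mul_one]
      · rw [if_neg his]
        have h2 := hs i hi
        rw [zero_pow (by omega), mul_zero] at h1
        exact h1
  refine (tendsto_nhds_unique hlim (tendsto_const_nhds.congr' ?_)).symm ▸ rfl
  filter_upwards [hn.eventually (eventually_ge_atTop 1)] with j hj
  have hj0 : (n j : ℂ) ≠ 0 := by
    rw [Nat.cast_ne_zero]; omega
  have e : ∑ i, γ i * ((z j / n j) ^ (i.1 : ℕ) *
      (starRingEnd ℂ (z j / n j)) ^ (i.2 : ℕ)) * ((n j : ℂ))⁻¹ ^ (s - ((i.1 : ℕ) + i.2)) =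
      ((n j : ℂ))⁻¹ ^ s * GG γ (z j) := by
    rw [GG, mul_sum]
    refine sum_congr rfl fun i _ => ?_
    by_cases hi : γ i = 0
    · rw [hi]; ring
    · have h2 := hs i hi
      have e1 : ((n j : ℂ))⁻¹ ^ s = ((n j : ℂ))⁻¹ ^ (i.1 : ℕ) * ((n j : ℂ))⁻¹ ^ (i.2 : ℕ) *
          ((n j : ℂ))⁻¹ ^ (s - ((i.1 : ℕ) + i.2)) := by
        rw [← pow_add, ← pow_add]
        congr 1
        omega
      rw [e1, map_div₀, Complex.conj_natCast, div_eq_mul_inv, div_eq_mul_inv, mul_pow, mul_pow]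
      ring
  rw [e, h0 j, mul_zero]

/-- zero-free discs -/
theorem zero_free {κ : Type*} [Finite κ] (m : κ → ℕ)
    (γ : ∀ c, Fin (m c + 1) × Fin (m c + 1) → ℂ) (hγ : ∀ c, ∃ i, γ c i ≠ 0) (M : ℝ) :
    ∃ w : ℂ, ∀ c, ∀ z : ℂ, ‖z - w‖ ≤ M → GG (γ c) z ≠ 0 := by
  by_contra hcon
  push Not at hcon
  have hs : ∀ c, ∃ s : ℕ, (∃ i, γ c i ≠ 0 ∧ (i.1 : ℕ) + i.2 = s) ∧
      ∀ i, γ c i ≠ 0 → (i.1 : ℕ) + i.2 ≤ s := fun c => exists_deg (γ c) (hγ c)
  choose s hs1 hs2 using hs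
  have hfin : (⋃ c, {ζ : ℂ | ‖ζ‖ = 1 ∧ top (γ c) (s c) ζ = 0}).Finite :=
    Set.finite_iUnion fun c => top_finite (γ c) (s c) (hs1 c)
  refine circle_infinite (hfin.subset fun ζ hζ => ?_)
  have h1 : ∀ n : ℕ, ∃ c, ∃ z : ℂ, ‖z - n * ζ‖ ≤ M ∧ GG (γ c) z = 0 := fun n => hcon (n * ζ)
  choose c z hz hG using h1
  obtain ⟨c0, hc0⟩ : ∃ c0, ∃ᶠ n in atTop, c n = c0 := by
    by_contra hno
    push Not at hno
    have h2 : ∀ᶠ n in atTop, ∀ c0, c n ≠ c0 := by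
      rw [eventually_all]
      intro c0
      exact hno c0
    obtain ⟨n, hn⟩ := h2.exists
    exact hn _ rfl
  obtain ⟨φ, hφ, hφ2⟩ := extraction_of_frequently_atTop hc0
  rw [Set.mem_iUnion]
  refine ⟨c0, hζ, top_limit (γ c0) (s c0) (hs2 c0) φ hφ.tendsto_atTop (fun j => z (φ j)) M
    (fun j => hz (φ j)) fun j => ?_⟩
  have := hG (φ j)
  rw [hφ2 j] at this
  exact this

end Q194.NH
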