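import Pool.Agent.Q194.NH.Key
import Pool.Agent.Q194.NH.Zero

/-!
# Exponential sums with dependent arguments have no dense range
-/

namespace Q194.NH

open Filter Topology Finset Polynomial

lemma choose_poly (N c i : ℕ) : ∃ p : ℂ[X], ∀ q : ℕ,
    (((N * q + c).choose i : ℕ) : ℂ) = p.eval (q : ℂ) := by
  induction i with
  | zero => exact ⟨1, fun q => by simp⟩
  | succ i ih =>
    obtain ⟨p, hp⟩ := ih
    refine ⟨C (((i : ℂ) + 1)⁻¹) * (p * (C (N : ℂ) * X + C (c : ℂ) - C (i : ℂ))), fun q => ?_⟩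
    have h1 := Nat.choose_succ_right_eq (N * q + c) i
    have h2 : (((N * q + c).choose (i + 1) : ℕ) : ℂ) * ((i : ℂ) + 1) =
        (((N * q + c).choose i : ℕ) : ℂ) * (((N * q + c : ℕ) : ℂ) - i) := by
      by_cases hle : i ≤ N * q + c
      · have h3 : (((N * q + c).choose (i + 1) * (i + 1) : ℕ) : ℂ) =
            (((N * q + c).choose i * (N * q + c - i) : ℕ) : ℂ) := by rw [h1]
        rw [Nat.cast_mul, Nat.cast_mul, Nat.cast_sub hle] at h3
        rw [← h3]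
        push_cast
        ring
      · rw [Nat.choose_eq_zero_of_lt (by omega), Nat.choose_eq_zero_of_lt (by omega)]
        simp
    have h4 : (i : ℂ) + 1 ≠ 0 := Nat.cast_add_one_ne_zero i
    simp only [eval_mul, eval_C, eval_sub, eval_add, eval_X]
    rw [← hp q]
    rw [eq_comm, inv_mul_eq_div, div_eq_iff h4, h2]
    push_cast
    ring

/-- the polynomial factor -/
noncomputable def hh (N0 : ℕ) (d : ℂ → ℕ → ℂ) (μ : ℂ) (k : ℕ) : ℂ :=
  ∑ i ∈ range N0, ((k.choose i : ℕ) : ℂ) * d μ i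

lemma hh_poly (N0 : ℕ) (d : ℂ → ℕ → ℂ) (N c : ℕ) (μ : ℂ) : ∃ p : ℂ[X], ∀ q : ℕ,
    hh N0 d μ (N * q + c) = p.eval (q : ℂ) := by
  choose p hp using choose_poly N c
  refine ⟨∑ i ∈ range N0, p i * C (d μ i), fun q => ?_⟩
  rw [hh, eval_finsetSum]
  refine sum_congr rfl fun i _ => ?_
  rw [hp, eval_mul, eval_C]

lemma poly_tendsto (p : ℂ[X]) {α : ℝ} (h0 : 0 ≤ α) (h1 : α < 1) :
    Tendsto (fun q : ℕ => ‖p.eval (q : ℂ)‖ * α ^ q) atTop (𝓝 0) := by
  have hlim : Tendsto (fun q : ℕ => ∑ i ∈ range (p.natDegree + 1),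
      ‖p.coeff i‖ * ((q : ℝ) ^ i * α ^ q)) atTop (𝓝 0) := by
    have : Tendsto (fun q : ℕ => ∑ i ∈ range (p.natDegree + 1),
      ‖p.coeff i‖ * ((q : ℝ) ^ i * α ^ q)) atTop
      (𝓝 (∑ i ∈ range (p.natDegree + 1), ‖p.coeff i‖ * 0)) :=
      tendsto_finsetSum _ fun i _ =>
        (tendsto_pow_const_mul_const_pow_of_lt_one i h0 h1).const_mul _
    simpa using this
  refine squeeze_zero (fun q => by positivity) (fun q => ?_) hlim
  rw [eval_eq_sum_range]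
  calc ‖∑ i ∈ range (p.natDegree + 1), p.coeff i * (q : ℂ) ^ i‖ * α ^ q ≤
        (∑ i ∈ range (p.natDegree + 1), ‖p.coeff i * (q : ℂ) ^ i‖) * α ^ q :=
        mul_le_mul_of_nonneg_right (norm_sum_le _ _) (by positivity)
    _ = _ := by
        rw [sum_mul]
        refine sum_congr rfl fun i _ => ?_
        rw [norm_mul, norm_pow, Complex.norm_natCast]
        ring

lemma poly_lower {p : ℂ[X]} (hp : p ≠ 0) : ∃ δ > 0, ∀ᶠ q : ℕ in atTop, δ ≤ ‖p.eval (q : ℂ)‖ := by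
  rcases (Nat.eq_zero_or_pos p.natDegree) with h | h
  · obtain ⟨a, ha⟩ : ∃ a, p = C a := ⟨p.coeff 0, eq_C_of_natDegree_eq_zero h⟩
    have ha0 : a ≠ 0 := by
      rintro rfl
      rw [C_0] at ha
      exact hp ha
    refine ⟨‖a‖, norm_pos_iff.2 ha0, Eventually.of_forall fun q => ?_⟩
    rw [ha, eval_C]
  · have h1 : Tendsto (fun q : ℕ => ‖(q : ℂ)‖) atTop atTop := by
      simp only [Complex.norm_natCast]
      exact tendsto_natCast_atTop_atTop
    have h2 := Polynomial.tendsto_norm_atTop p (natDegree_pos_iff_degree_pos.1 h) h1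
    exact ⟨1, one_pos, h2.eventually_ge_atTop 1⟩

lemma SS_add (s s' : (ℝ × ℕ × ℤ) →₀ ℂ) (q : ℕ) (t : ℂ) : SS (s + s') q t = SS s q t + SS s' q t := by
  have h : ∀ s : (ℝ × ℕ × ℤ) →₀ ℂ, SS s q t = s.sum fun x c =>
      c * ((((Real.exp (x.1 * q) : ℝ) : ℂ) * (q : ℂ) ^ x.2.1) * t ^ x.2.2) := fun s => rfl
  rw [h, h, h, Finsupp.sum_add_index']
  · intro a; rw [zero_mul]
  · intro a b c; rw [add_mul]

lemma SS_single (x : ℝ × ℕ × ℤ) (c : ℂ) (q : ℕ) (t : ℂ) : SS (Finsupp.single x c) q t =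
    c * ((((Real.exp (x.1 * q) : ℝ) : ℂ) * (q : ℂ) ^ x.2.1) * t ^ x.2.2) := by
  have h : SS (Finsupp.single x c) q t = (Finsupp.single x c).sum fun x c =>
      c * ((((Real.exp (x.1 * q) : ℝ) : ℂ) * (q : ℂ) ^ x.2.1) * t ^ x.2.2) := rfl
  rw [h, Finsupp.sum_single_index]
  rw [zero_mul]

lemma SS_zero (q : ℕ) (t : ℂ) : SS 0 q t = 0 := by
  unfold SS
  simp

/-- a sequence given by an exponential polynomial -/
def Good (w1 : ℂ) (v : ℕ → ℂ) : Prop := ∃ s : (ℝ × ℕ × ℤ) →₀ ℂ, ∀ q, v q = SS s q (w1 ^ q)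

lemma Good.add {w1 : ℂ} {v v' : ℕ → ℂ} (h : Good w1 v) (h' : Good w1 v') :
    Good w1 fun q => v q + v' q := by
  obtain ⟨s, hs⟩ := h
  obtain ⟨s', hs'⟩ := h'
  exact ⟨s + s', fun q => by
    show v q + v' q = _
    rw [hs, hs', SS_add]⟩

lemma Good.sum {w1 : ℂ} {ι : Type*} (F : Finset ι) (v : ι → ℕ → ℂ) (h : ∀ i ∈ F, Good w1 (v i)) :
    Good w1 fun q => ∑ i ∈ F, v i q := by
  classical
  induction F using Finset.induction_on with
  | empty => exact ⟨0, fun q => by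
      show ∑ i ∈ ∅, v i q = _
      rw [SS_zero, sum_empty]⟩
  | insert a F ha ih =>
    simp only [sum_insert ha]
    exact (h a (mem_insert_self _ _)).add (ih fun i hi => h i (mem_insert_of_mem hi))

/-- a single term -/
lemma good_term {w1 μ : ℂ} {N c : ℕ} {n : ℤ} (hμ : μ ≠ 0) (hn : (μ / ‖μ‖) ^ N = w1 ^ n)
    (hw1 : ‖w1‖ = 1) (p : ℂ[X]) : Good w1 fun q => μ ^ (N * q + c) * p.eval (q : ℂ) := by
  have e : ∀ q : ℕ, μ ^ (N * q + c) * p.eval (q : ℂ) =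
      ∑ i ∈ range (p.natDegree + 1), (μ ^ c * p.coeff i) *
        ((((Real.exp (N * Real.log ‖μ‖ * q) : ℝ) : ℂ) * (q : ℂ) ^ i) * (w1 ^ q) ^ n) := by
    intro q
    have hμn : 0 < ‖μ‖ := norm_pos_iff.2 hμ
    have hw0 : w1 ≠ 0 := by
      rintro rfl
      simp at hw1
    have e1 : μ ^ N = ((‖μ‖ ^ N : ℝ) : ℂ) * w1 ^ n := by
      rw [← hn, div_pow]
      push_cast
      have : ((‖μ‖ : ℝ) : ℂ) ≠ 0 := Complex.ofReal_ne_zero.2 hμn.ne'
      field_simp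
    have e2 : Real.exp (N * Real.log ‖μ‖ * q) = (‖μ‖ ^ N) ^ q := by
      rw [mul_assoc, mul_comm (Real.log ‖μ‖), ← mul_assoc, ← Nat.cast_mul, mul_comm,
        Real.exp_mul, Real.exp_log hμn, Real.rpow_natCast, pow_mul]
    rw [pow_add, pow_mul, e1, mul_pow, eval_eq_sum_range, mul_sum, e2]
    refine sum_congr rfl fun i _ => ?_
    have e3 : (w1 ^ n) ^ q = (w1 ^ q) ^ n := by
      rw [← zpow_natCast, ← zpow_natCast, ← zpow_mul, ← zpow_mul, mul_comm]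
    rw [e3]
    push_cast
    ring
  have h := Good.sum (w1 := w1) (range (p.natDegree + 1)) (fun i q => (μ ^ c * p.coeff i) *
        ((((Real.exp (N * Real.log ‖μ‖ * q) : ℝ) : ℂ) * (q : ℂ) ^ i) * (w1 ^ q) ^ n))
    fun i _ => ⟨Finsupp.single (N * Real.log ‖μ‖, i, n) (μ ^ c * p.coeff i), fun q => by
      rw [SS_single]⟩
  obtain ⟨s, hs⟩ := h
  exact ⟨s, fun q => (e q).trans (hs q)⟩

section

variable (A : Finset ℂ) (N0 : ℕ) (d : ℂ → ℕ → ℂ) (B : ℕ → ℂ) (M : ℝ)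

/-- the sequence -/
noncomputable def uu (k : ℕ) : ℂ := ∑ μ ∈ A, μ ^ k * hh N0 d μ k + B k

variable {A N0 d B M} (hB : ∀ k, ‖B k‖ ≤ M) {r : ℝ} (hr : 1 ≤ r) {w1 : ℂ} (hw1 : ‖w1‖ = 1) {N : ℕ}
  (hA : ∀ μ ∈ A, 1 ≤ ‖μ‖)
  (h1 : ∀ μ ∈ A, ‖μ‖ ≤ r → ∃ n : ℤ, (μ / ‖μ‖) ^ N = w1 ^ n)
  (h2 : ∀ μ ∈ A, ∀ ν ∈ A, r < ‖μ‖ → ‖μ‖ = ‖ν‖ → μ ^ N = ν ^ N)

include hB hr hw1 hA h1 h2

/-- the accumulation points along one class -/
lemma class_lemma (c : ℕ) (hN : 0 < N) : ∃ (m : ℕ) (γ : Fin (m + 1) × Fin (m + 1) → ℂ),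
    (∃ i, γ i ≠ 0) ∧ ∀ w : ℂ, (∀ ε > 0, ∃ᶠ q in atTop, ‖uu A N0 d B (N * q + c) - w‖ < ε) →
      ∃ z, ‖z - w‖ ≤ M ∧ GG γ z = 0 := by
  classical
  choose p hp using hh_poly N0 d N c
  set P : ℝ → ℂ[X] := fun ρ => ∑ μ ∈ A.filter (fun μ => ‖μ‖ = ρ), C (μ ^ c) * p μ with hP
  have hfib : ∀ ρ, r < ρ → ∀ κ ∈ A, ‖κ‖ = ρ → ∀ q : ℕ,
      ∑ μ ∈ A.filter (fun μ => ‖μ‖ = ρ), μ ^ (N * q + c) * (p μ).eval (q : ℂ) =
        (κ ^ N) ^ q * (P ρ).eval (q : ℂ) := by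
    intro ρ hρ κ hκ hκρ q
    rw [hP]
    simp only
    rw [eval_finsetSum, mul_sum]
    refine sum_congr rfl fun μ hμ => ?_
    obtain ⟨hμA, hμρ⟩ := mem_filter.1 hμ
    rw [eval_mul, eval_C, pow_add, pow_mul, h2 κ hκ μ hμA (by rw [hκρ]; exact hρ)
      (by rw [hκρ, hμρ])]
    ring
  have hvanish : ∀ ρ1, r ≤ ρ1 → (∀ μ ∈ A, ρ1 < ‖μ‖ → P ‖μ‖ = 0) → ∀ q : ℕ,
      ∑ μ ∈ A.filter (fun μ => ρ1 < ‖μ‖), μ ^ (N * q + c) * (p μ).eval (q : ℂ) = 0 := by
    intro ρ1 hρ1 hz q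
    rw [← sum_fiberwise_of_maps_to (s := A.filter (fun μ => ρ1 < ‖μ‖))
      (t := (A.filter (fun μ => ρ1 < ‖μ‖)).image fun μ => ‖μ‖) (g := fun μ => ‖μ‖)
      (fun μ hμ => mem_image_of_mem _ hμ)]
    refine sum_eq_zero fun ρ hρ => ?_
    obtain ⟨κ, hκ, hκρ⟩ := mem_image.1 hρ
    obtain ⟨hκA, hκ1⟩ := mem_filter.1 hκ
    have e : (A.filter (fun μ => ρ1 < ‖μ‖)).filter (fun μ => ‖μ‖ = ρ) =
        A.filter (fun μ => ‖μ‖ = ρ) := by
      ext μ
      simp only [mem_filter]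
      constructor
      · rintro ⟨⟨h, _⟩, h'⟩; exact ⟨h, h'⟩
      · rintro ⟨h, h'⟩
        refine ⟨⟨h, ?_⟩, h'⟩
        rw [h', ← hκρ]; exact hκ1
    rw [e, hfib ρ (by rw [← hκρ]; linarith) κ hκA hκρ q]
    have := hz κ hκA hκ1
    rw [hκρ] at this
    rw [this, eval_zero, mul_zero]
  by_cases hfirst : ∃ μ ∈ A, r < ‖μ‖ ∧ P ‖μ‖ ≠ 0
  · -- the first kind: the sequence tends to infinity
    obtain ⟨κ, hκ, hmax⟩ := exists_max_image (A.filter fun μ => r < ‖μ‖ ∧ P ‖μ‖ ≠ 0)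
      (fun μ => ‖μ‖) (by
        obtain ⟨μ, hμ, h⟩ := hfirst
        exact ⟨μ, mem_filter.2 ⟨hμ, h⟩⟩)
    obtain ⟨hκA, hκr, hκP⟩ := mem_filter.1 hκ
    set ρ0 := ‖κ‖ with hρ0
    have hρ01 : 1 < ρ0 := by linarith
    obtain ⟨δ, hδ, hδe⟩ := poly_lower hκP
    have hinf : Tendsto (fun q : ℕ => ‖uu A N0 d B (N * q + c)‖) atTop atTop := by
      have hdecomp : ∀ q : ℕ, uu A N0 d B (N * q + c) = (κ ^ N) ^ q * (P ρ0).eval (q : ℂ) +
          (∑ μ ∈ A.filter (fun μ => ‖μ‖ < ρ0), μ ^ (N * q + c) * (p μ).eval (q : ℂ) +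
            B (N * q + c)) := by
        intro q
        rw [uu, ← hfib ρ0 hκr κ hκA rfl q, ← add_assoc]
        congr 1
        have hz := hvanish ρ0 hκr.le (fun μ hμ hlt => by
          by_contra hne
          exact absurd (hmax μ (mem_filter.2 ⟨hμ, by linarith, hne⟩)) (not_le.2 hlt)) q
        have e1 : ∀ μ ∈ A, μ ^ (N * q + c) * hh N0 d μ (N * q + c) =
            μ ^ (N * q + c) * (p μ).eval (q : ℂ) := fun μ _ => by rw [hp]
        rw [sum_congr rfl e1, ← sum_filter_add_sum_filter_not A (fun μ => ρ0 < ‖μ‖), hz, zero_add,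
          ← sum_filter_add_sum_filter_not (A.filter fun μ => ¬ ρ0 < ‖μ‖) (fun μ => ‖μ‖ = ρ0),
          filter_filter, filter_filter]
        congr 1
        · refine sum_congr ?_ fun _ _ => rfl
          ext μ
          simp only [mem_filter]
          constructor
          · rintro ⟨h, _, h'⟩; exact ⟨h, h'⟩
          · rintro ⟨h, h'⟩; exact ⟨h, by rw [h']; exact lt_irrefl _, h'⟩
        · refine sum_congr ?_ fun _ _ => rfl
          ext μ
          simp only [mem_filter, not_lt]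
          constructor
          · rintro ⟨h, h', h''⟩; exact ⟨h, lt_of_le_of_ne h' h''⟩
          · rintro ⟨h, h'⟩; exact ⟨h, h'.le, h'.ne⟩
      have hsmall : Tendsto (fun q : ℕ =>
          (∑ μ ∈ A.filter (fun μ => ‖μ‖ < ρ0), ‖μ ^ c‖ * (‖(p μ).eval (q : ℂ)‖ *
            ((‖μ‖ / ρ0) ^ N) ^ q)) + |M| * ((1 / ρ0) ^ N) ^ q) atTop (𝓝 0) := by
        have a1 : Tendsto (fun q : ℕ =>
          (∑ μ ∈ A.filter (fun μ => ‖μ‖ < ρ0), ‖μ ^ c‖ * (‖(p μ).eval (q : ℂ)‖ *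
            ((‖μ‖ / ρ0) ^ N) ^ q))) atTop (𝓝 (∑ μ ∈ A.filter (fun μ => ‖μ‖ < ρ0), ‖μ ^ c‖ * 0)) :=
          tendsto_finsetSum _ fun μ hμ => by
            refine (poly_tendsto (p μ) (by positivity) ?_).const_mul _
            refine pow_lt_one₀ (by positivity) ?_ hN.ne'
            rw [div_lt_one (by linarith)]
            exact (mem_filter.1 hμ).2
        have a2 : Tendsto (fun q : ℕ => |M| * ((1 / ρ0) ^ N) ^ q) atTop (𝓝 (|M| * 0)) := by
          refine (tendsto_pow_atTop_nhds_zero_of_lt_one (by positivity) ?_).const_mul _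
          refine pow_lt_one₀ (by positivity) ?_ hN.ne'
          rw [div_lt_one (by linarith)]
          exact hρ01
        simpa using a1.add a2
      have hpow : Tendsto (fun q : ℕ => (ρ0 ^ N) ^ q * (δ / 2)) atTop atTop :=
        (tendsto_pow_atTop_atTop_of_one_lt (one_lt_pow₀ hρ01 hN.ne')).atTop_mul_const
          (by positivity)
      refine tendsto_atTop_mono' _ ?_ hpow
      filter_upwards [hδe, hsmall.eventually (eventually_lt_nhds (show (0 : ℝ) < δ / 2 by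
        positivity))] with q hq1 hq2
      rw [hdecomp]
      have hρpos : 0 < (ρ0 ^ N) ^ q := by positivity
      have b1 : ‖∑ μ ∈ A.filter (fun μ => ‖μ‖ < ρ0), μ ^ (N * q + c) * (p μ).eval (q : ℂ) +
            B (N * q + c)‖ ≤ (ρ0 ^ N) ^ q * (δ / 2) := by
        calc _ ≤ (∑ μ ∈ A.filter (fun μ => ‖μ‖ < ρ0), ‖μ ^ (N * q + c) * (p μ).eval (q : ℂ)‖) +
              ‖B (N * q + c)‖ := (norm_add_le _ _).trans (add_le_add (norm_sum_le _ _) le_rfl)
          _ ≤ (∑ μ ∈ A.filter (fun μ => ‖μ‖ < ρ0), (ρ0 ^ N) ^ q * (‖μ ^ c‖ *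
              (‖(p μ).eval (q : ℂ)‖ * ((‖μ‖ / ρ0) ^ N) ^ q))) +
              (ρ0 ^ N) ^ q * (|M| * ((1 / ρ0) ^ N) ^ q) := by
              refine add_le_add (sum_le_sum fun μ _ => le_of_eq ?_) ?_
              · rw [norm_mul, norm_pow, norm_pow, div_pow, div_pow, pow_add, pow_mul]
                field_simp
              · rw [one_div, inv_pow, inv_pow]
                have : (ρ0 ^ N) ^ q * (|M| * ((ρ0 ^ N) ^ q)⁻¹) = |M| := by
                  field_simp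
                rw [this]
                exact (hB _).trans (le_abs_self M)
          _ = (ρ0 ^ N) ^ q * ((∑ μ ∈ A.filter (fun μ => ‖μ‖ < ρ0), ‖μ ^ c‖ *
              (‖(p μ).eval (q : ℂ)‖ * ((‖μ‖ / ρ0) ^ N) ^ q)) + |M| * ((1 / ρ0) ^ N) ^ q) := by
              rw [mul_add, mul_sum]
          _ ≤ _ := by gcongr
      have b2 : (ρ0 ^ N) ^ q * δ ≤ ‖(κ ^ N) ^ q * (P ρ0).eval (q : ℂ)‖ := by
        rw [norm_mul, norm_pow, norm_pow]
        gcongr
      have b3 := norm_sub_le_norm_add ((κ ^ N) ^ q * (P ρ0).eval (q : ℂ))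
        (∑ μ ∈ A.filter (fun μ => ‖μ‖ < ρ0), μ ^ (N * q + c) * (p μ).eval (q : ℂ) +
            B (N * q + c))
      nlinarith
    refine ⟨0, fun _ => 1, ⟨(0, 0), one_ne_zero⟩, fun w hw => ?_⟩
    exfalso
    obtain ⟨q, hq1, hq2⟩ := ((hw 1 one_pos).and_eventually
      (hinf.eventually_ge_atTop (‖w‖ + 1))).exists
    have := norm_sub_norm_le (uu A N0 d B (N * q + c)) w
    linarith
  · -- the second kind
    push Not at hfirst
    have hgood : Good w1 fun q => ∑ μ ∈ A.filter (fun μ => ¬ r < ‖μ‖),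
        μ ^ (N * q + c) * (p μ).eval (q : ℂ) := by
      refine Good.sum _ _ fun μ hμ => ?_
      obtain ⟨hμA, hμr⟩ := mem_filter.1 hμ
      obtain ⟨n, hn⟩ := h1 μ hμA (not_lt.1 hμr)
      refine good_term ?_ hn hw1 (p μ)
      rintro rfl
      have := hA 0 hμA
      rw [norm_zero] at this
      linarith
    obtain ⟨s, hs⟩ := hgood
    obtain ⟨m, g, γ, hlim, hne, hrel⟩ := key s
    refine ⟨m, γ, hne, fun w hw => ?_⟩
    have hdecomp : ∀ q : ℕ, uu A N0 d B (N * q + c) = SS s q (w1 ^ q) + B (N * q + c) := by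
      intro q
      rw [uu, ← hs q]
      congr 1
      have e1 : ∀ μ ∈ A, μ ^ (N * q + c) * hh N0 d μ (N * q + c) =
            μ ^ (N * q + c) * (p μ).eval (q : ℂ) := fun μ _ => by rw [hp]
      rw [sum_congr rfl e1, ← sum_filter_add_sum_filter_not A (fun μ => r < ‖μ‖),
        hvanish r le_rfl (fun μ hμ hlt => hfirst μ hμ hlt) q, zero_add]
    have hseq : ∀ j : ℕ, ∃ q : ℕ, j + 1 ≤ q ∧ ‖uu A N0 d B (N * q + c) - w‖ < 1 / ((j : ℝ) + 1) := by
      intro j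
      obtain ⟨q, hq1, hq2⟩ := ((hw (1 / ((j : ℝ) + 1)) (by positivity)).and_eventually
        (eventually_ge_atTop (j + 1))).exists
      exact ⟨q, hq2, hq1⟩
    choose Q hQ1 hQ2 using hseq
    set z : ℕ → ℂ := fun j => SS s (Q j) (w1 ^ Q j) with hz
    have hzw : ∀ j, ‖z j - w‖ ≤ M + 1 / ((j : ℝ) + 1) := by
      intro j
      have e : z j - w = (uu A N0 d B (N * Q j + c) - w) - B (N * Q j + c) := by
        rw [hdecomp]; ring
      rw [e]
      refine (norm_sub_le _ _).trans ?_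
      linarith [hB (N * Q j + c), hQ2 j]
    have hbdd : ∀ j, z j ∈ Metric.closedBall w (M + 1) := by
      intro j
      rw [Metric.mem_closedBall, dist_eq_norm]
      refine (hzw j).trans ?_
      have : 1 / ((j : ℝ) + 1) ≤ 1 := by
        rw [div_le_one (by positivity)]
        have := Nat.cast_nonneg (α := ℝ) j
        linarith
      linarith
    obtain ⟨a, _, φ, hφ, hφ2⟩ := tendsto_subseq_of_bounded Metric.isBounded_closedBall hbdd
    refine ⟨a, ?_, ?_⟩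
    · have l1 : Tendsto (fun j => ‖z (φ j) - w‖) atTop (𝓝 ‖a - w‖) := (hφ2.sub_const w).norm
      have l2 : Tendsto (fun j => M + 1 / ((φ j : ℝ) + 1)) atTop (𝓝 (M + 0)) :=
        (tendsto_one_div_add_atTop_nhds_zero_nat.comp hφ.tendsto_atTop).const_add M
      rw [add_zero] at l2
      exact le_of_tendsto_of_tendsto' l1 l2 fun j => hzw (φ j)
    · have hQt : Tendsto (fun j => Q (φ j)) atTop atTop := by
        refine tendsto_atTop_mono (fun j => ?_) hφ.tendsto_atTop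
        have := hQ1 (φ j)
        omega
      have hφc : Tendsto (fun j => starRingEnd ℂ (z (φ j))) atTop (𝓝 (starRingEnd ℂ a)) :=
        (Complex.continuous_conj.tendsto a).comp hφ2
      have l3 : Tendsto (fun j => ∑ i, g i (Q (φ j)) * (z (φ j) ^ (i.1 : ℕ) *
          (starRingEnd ℂ (z (φ j))) ^ (i.2 : ℕ))) atTop (𝓝 (GG γ a)) := by
        unfold GG
        refine tendsto_finsetSum _ fun i _ => ?_
        exact ((hlim i).comp hQt).mul ((hφ2.pow _).mul (hφc.pow _))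
      refine tendsto_nhds_unique l3 (tendsto_const_nhds.congr fun j => ?_)
      have h3 := hrel (Q (φ j)) (by have := hQ1 (φ j); omega) (w1 ^ Q (φ j)) (by
        rw [norm_pow, hw1, one_pow])
      exact h3.symm

/-- the range is not dense -/
theorem core (hN : 0 < N) : ¬ Dense (Set.range (uu A N0 d B)) := by
  intro hdense
  have hcl := fun c : Fin N => class_lemma (A := A) (N0 := N0) (d := d) (B := B) (c := c)
    hB hr hw1 hA h1 h2 hN
  choose m γ hγ hacc using hcl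
  obtain ⟨w, hw⟩ := zero_free m γ hγ M
  have hnot : ∀ c : Fin N, ∃ ε > 0, ∀ᶠ q in atTop, ε ≤ ‖uu A N0 d B (N * q + c) - w‖ := by
    intro c
    by_contra hcon
    push Not at hcon
    obtain ⟨z, hz1, hz2⟩ := hacc c w (fun ε hε => by
      have := hcon ε hε
      exact this)
    exact hw c z hz1 hz2
  choose ε hε hev using hnot
  obtain ⟨ε0, hε0, hεle⟩ : ∃ ε0 > 0, ∀ c, ε0 ≤ ε c := by
    have : Nonempty (Fin N) := ⟨⟨0, hN⟩⟩
    obtain ⟨c, hc⟩ := Finite.exists_min ε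
    exact ⟨ε c, hε c, hc⟩
  have hall : ∀ᶠ q in atTop, ∀ c : Fin N, ε c ≤ ‖uu A N0 d B (N * q + c) - w‖ :=
    eventually_all.2 hev
  obtain ⟨Q, hQ⟩ := eventually_atTop.1 hall
  have hd := hdense.sdiff_finite ((Set.finite_lt_nat (N * Q)).image (uu A N0 d B))
  obtain ⟨y, hy, hyw⟩ := hd.exists_dist_lt w hε0
  obtain ⟨⟨k, rfl⟩, hk⟩ := hy
  have hkN : N * Q ≤ k := by
    by_contra hlt
    exact hk ⟨k, not_le.1 hlt, rfl⟩
  have h5 := hQ (k / N) ((Nat.le_div_iff_mul_le hN).2 (by rw [mul_comm]; exact hkN))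
    ⟨k % N, Nat.mod_lt _ hN⟩
  simp only at h5
  rw [Nat.div_add_mod] at h5
  rw [dist_comm, dist_eq_norm] at hyw
  linarith [hεle ⟨k % N, Nat.mod_lt _ hN⟩]

end

end Q194.NH
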