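import Mathlib

/-!
# The algebraic relation satisfied by an exponential polynomial on the unit circle
-/

namespace Q194.NH

open Filter Topology Finset Polynomial

/-- the algebra of the exponents -/
abbrev E := AddMonoidAlgebra ℂ (ℝ × ℕ)

/-- the evaluation of the monomials -/
noncomputable def evm (q : ℕ) : Multiplicative (ℝ × ℕ) →* ℂ where
  toFun x := ((Real.exp (x.toAdd.1 * q) : ℝ) : ℂ) * (q : ℂ) ^ x.toAdd.2
  map_one' := by simp
  map_mul' x y := by
    simp only [toAdd_mul, Prod.fst_add, Prod.snd_add, add_mul, Real.exp_add, pow_add]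
    push_cast
    ring

/-- the evaluation -/
noncomputable def ev (q : ℕ) : E →ₐ[ℂ] ℂ := AddMonoidAlgebra.lift ℂ ℂ (ℝ × ℕ) (evm q)

lemma ev_apply (q : ℕ) (g : E) : ev q g = ∑ x ∈ g.coeff.support,
    g.coeff x * (((Real.exp (x.1 * q) : ℝ) : ℂ) * (q : ℂ) ^ x.2) := by
  unfold ev
  rw [AddMonoidAlgebra.lift_apply, Finsupp.sum]
  rfl

lemma ev_single (q : ℕ) (x : ℝ × ℕ) (c : ℂ) : ev q (AddMonoidAlgebra.single x c) =
    c * (((Real.exp (x.1 * q) : ℝ) : ℂ) * (q : ℂ) ^ x.2) := by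
  unfold ev
  rw [AddMonoidAlgebra.lift_single]
  rfl

/-- the asymptotics of the monomials -/
lemma mono_tendsto {x y : ℝ × ℕ} (h : toLex x ≤ toLex y) :
    Tendsto (fun q : ℕ => (((Real.exp (x.1 * q) : ℝ) : ℂ) * (q : ℂ) ^ x.2) /
      (((Real.exp (y.1 * q) : ℝ) : ℂ) * (q : ℂ) ^ y.2)) atTop (𝓝 (if x = y then 1 else 0)) := by
  by_cases hxy : x = y
  · rw [if_pos hxy, hxy]
    refine tendsto_const_nhds.congr' ?_
    filter_upwards [eventually_ge_atTop 1] with q hq
    rw [div_self]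
    have h1 : (q : ℂ) ≠ 0 := by
      rw [Nat.cast_ne_zero]; omega
    exact mul_ne_zero (Complex.ofReal_ne_zero.2 (Real.exp_pos _).ne') (pow_ne_zero _ h1)
  · rw [if_neg hxy]
    rw [tendsto_zero_iff_norm_tendsto_zero]
    rw [Prod.Lex.toLex_le_toLex] at h
    rcases h with h | ⟨h1, h2⟩
    · -- exponential gap
      have hr : Real.exp (-(y.1 - x.1)) < 1 := by
        rw [Real.exp_lt_one_iff]; linarith
      have hlim := tendsto_pow_const_mul_const_pow_of_lt_one x.2 (Real.exp_pos _).le hr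
      refine squeeze_zero' (Eventually.of_forall fun _ => norm_nonneg _) ?_ hlim
      filter_upwards [eventually_ge_atTop 1] with q hq
      have hq1 : (1 : ℝ) ≤ q := by exact_mod_cast hq
      rw [norm_div, norm_mul, norm_mul, norm_pow, norm_pow, Complex.norm_real, Complex.norm_real,
        Complex.norm_natCast, Real.norm_eq_abs, Real.norm_eq_abs, Real.abs_exp, Real.abs_exp]
      rw [div_le_iff₀ (by positivity), ← Real.exp_nat_mul]
      have e1 : Real.exp (x.1 * q) = Real.exp (↑q * -(y.1 - x.1)) * Real.exp (y.1 * q) := by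
        rw [← Real.exp_add]; congr 1; ring
      rw [e1]
      have h3 : (1 : ℝ) ≤ (q : ℝ) ^ y.2 := one_le_pow₀ hq1
      have h4 : 0 ≤ Real.exp (↑q * -(y.1 - x.1)) * Real.exp (y.1 * q) * (q : ℝ) ^ x.2 := by
        positivity
      calc Real.exp (↑q * -(y.1 - x.1)) * Real.exp (y.1 * q) * (q : ℝ) ^ x.2 ≤
          (Real.exp (↑q * -(y.1 - x.1)) * Real.exp (y.1 * q) * (q : ℝ) ^ x.2) * (q : ℝ) ^ y.2 :=
            le_mul_of_one_le_right h4 h3
        _ = _ := by ring
    · -- polynomial gap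
      have hlt : x.2 < y.2 := by
        refine lt_of_le_of_ne h2 fun h3 => hxy (Prod.ext h1 h3)
      have hlim : Tendsto (fun q : ℕ => (1 : ℝ) / (q : ℝ)) atTop (𝓝 0) :=
        tendsto_one_div_atTop_nhds_zero_nat
      refine squeeze_zero' (Eventually.of_forall fun _ => norm_nonneg _) ?_ hlim
      filter_upwards [eventually_ge_atTop 1] with q hq
      have hq1 : (1 : ℝ) ≤ q := by exact_mod_cast hq
      rw [norm_div, norm_mul, norm_mul, norm_pow, norm_pow, Complex.norm_real, Complex.norm_real,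
        Complex.norm_natCast, Real.norm_eq_abs, Real.norm_eq_abs, Real.abs_exp, Real.abs_exp, h1]
      rw [div_le_div_iff₀ (by positivity) (by positivity), one_mul]
      have h3 : (q : ℝ) ^ x.2 * q ≤ (q : ℝ) ^ y.2 := by
        rw [← pow_succ]
        exact pow_le_pow_right₀ hq1 hlt
      calc Real.exp (y.1 * q) * (q : ℝ) ^ x.2 * q = Real.exp (y.1 * q) * ((q : ℝ) ^ x.2 * q) := by
            ring
        _ ≤ Real.exp (y.1 * q) * (q : ℝ) ^ y.2 := by gcongr

/-- the leading coefficients of a finite family -/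
lemma leading {ι : Type*} [Fintype ι] (g : ι → E) (hg : ∃ i, g i ≠ 0) :
    ∃ y : ℝ × ℕ, (∃ i, (g i).coeff y ≠ 0) ∧ ∀ i, Tendsto (fun q : ℕ => ev q (g i) /
      (((Real.exp (y.1 * q) : ℝ) : ℂ) * (q : ℂ) ^ y.2)) atTop (𝓝 ((g i).coeff y)) := by
  classical
  set F : Finset (ℝ × ℕ) := univ.biUnion fun i => (g i).coeff.support with hF
  have hne : F.Nonempty := by
    obtain ⟨i, hi⟩ := hg
    have : (g i).coeff ≠ 0 := by
      intro h
      apply hi
      ext x
      rw [h]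
      rfl
    obtain ⟨x, hx⟩ := Finsupp.support_nonempty_iff.2 this
    exact ⟨x, mem_biUnion.2 ⟨i, mem_univ _, hx⟩⟩
  obtain ⟨y, hy, hmax⟩ := exists_max_image F (fun x => toLex x) hne
  refine ⟨y, ?_, fun i => ?_⟩
  · obtain ⟨i, _, hi⟩ := mem_biUnion.1 hy
    exact ⟨i, Finsupp.mem_support_iff.1 hi⟩
  · have h1 : Tendsto (fun q : ℕ => ∑ x ∈ (g i).coeff.support, (g i).coeff x *
        ((((Real.exp (x.1 * q) : ℝ) : ℂ) * (q : ℂ) ^ x.2) /
        (((Real.exp (y.1 * q) : ℝ) : ℂ) * (q : ℂ) ^ y.2))) atTop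
        (𝓝 (∑ x ∈ (g i).coeff.support, (g i).coeff x * (if x = y then 1 else 0))) := by
      refine tendsto_finsetSum _ fun x hx => ?_
      exact (mono_tendsto (hmax x (mem_biUnion.2 ⟨i, mem_univ _, hx⟩))).const_mul _
    have h2 : ∑ x ∈ (g i).coeff.support, (g i).coeff x * (if x = y then 1 else 0) =
        (g i).coeff y := by
      simp only [mul_ite, mul_one, mul_zero]
      rw [sum_ite_eq' ((g i).coeff.support) y]
      split_ifs with h
      · rfl
      · exact (Finsupp.notMem_support_iff.1 h).symm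
    rw [h2] at h1
    refine h1.congr fun q => ?_
    rw [ev_apply, sum_div]
    refine sum_congr rfl fun x _ => ?_
    ring

/-- the exponential polynomial with a parameter on the circle -/
noncomputable def SS (s : (ℝ × ℕ × ℤ) →₀ ℂ) (q : ℕ) (t : ℂ) : ℂ :=
  ∑ x ∈ s.support, s x * ((((Real.exp (x.1 * q) : ℝ) : ℂ) * (q : ℂ) ^ x.2.1) * t ^ x.2.2)

/-- linear dependence over the ring of exponents -/
lemma dependence {ι : Type*} [Fintype ι] (K : ℕ) (v : ι → E[X]) (hv : ∀ i, (v i).natDegree ≤ K)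
    (hcard : K + 1 < Fintype.card ι) : ∃ g : ι → E, (∃ i, g i ≠ 0) ∧ ∑ i, C (g i) * v i = 0 := by
  classical
  have hnl : ¬ LinearIndependent E (fun i => fun n : Fin (K + 1) => (v i).coeff n) := by
    intro h
    have h1 := h.fintype_card_le_finrank
    rw [Module.finrank_fintype_fun_eq_card, Fintype.card_fin] at h1
    omega
  rw [Fintype.not_linearIndependent_iff] at hnl
  obtain ⟨g, hg, i, hi⟩ := hnl
  refine ⟨g, ⟨i, hi⟩, ?_⟩
  ext1 n
  rw [finset_sum_coeff, coeff_zero]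
  simp only [coeff_C_mul]
  by_cases hn : n < K + 1
  · have h2 := congrFun hg ⟨n, hn⟩
    simpa [Finset.sum_apply] using h2
  · refine sum_eq_zero fun j _ => ?_
    rw [coeff_eq_zero_of_natDegree_lt (lt_of_le_of_lt (hv j) (by omega)), mul_zero]

/-- The key lemma: a relation between the values and their conjugates, with converging
coefficients. -/
theorem key (s : (ℝ × ℕ × ℤ) →₀ ℂ) : ∃ (m : ℕ) (g : Fin (m + 1) × Fin (m + 1) → ℕ → ℂ)
    (γ : Fin (m + 1) × Fin (m + 1) → ℂ), (∀ i, Tendsto (g i) atTop (𝓝 (γ i))) ∧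
    (∃ i, γ i ≠ 0) ∧ ∀ q : ℕ, 1 ≤ q → ∀ t : ℂ, ‖t‖ = 1 →
      ∑ i, g i q * (SS s q t ^ (i.1 : ℕ) * (starRingEnd ℂ (SS s q t)) ^ (i.2 : ℕ)) = 0 := by
  classical
  obtain ⟨D, hD⟩ : ∃ D : ℕ, ∀ x ∈ s.support, x.2.2.natAbs ≤ D :=
    ⟨s.support.sup fun x => x.2.2.natAbs, fun x hx => le_sup (f := fun x => x.2.2.natAbs) hx⟩
  set f : E[X] := ∑ x ∈ s.support, monomial (x.2.2 + D).toNat
    (AddMonoidAlgebra.single (x.1, x.2.1) (s x)) with hf
  set f' : E[X] := ∑ x ∈ s.support, monomial (D - x.2.2).toNat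
    (AddMonoidAlgebra.single (x.1, x.2.1) (starRingEnd ℂ (s x))) with hf'
  have hfd : f.natDegree ≤ 2 * D := by
    refine natDegree_sum_le_of_forall_le _ _ fun x hx => ?_
    refine (natDegree_monomial_le _).trans ?_
    have := hD x hx
    omega
  have hfd' : f'.natDegree ≤ 2 * D := by
    refine natDegree_sum_le_of_forall_le _ _ fun x hx => ?_
    refine (natDegree_monomial_le _).trans ?_
    have := hD x hx
    omega
  -- evaluations
  have hev : ∀ (q : ℕ) (t : ℂ), t ≠ 0 → eval₂ (ev q : E →+* ℂ) t f = t ^ D * SS s q t := by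
    intro q t ht
    rw [hf, eval₂_finset_sum, SS, mul_sum]
    refine sum_congr rfl fun x hx => ?_
    rw [eval₂_monomial]
    have h1 : (ev q : E →+* ℂ) (AddMonoidAlgebra.single (x.1, x.2.1) (s x)) =
        s x * (((Real.exp (x.1 * q) : ℝ) : ℂ) * (q : ℂ) ^ x.2.1) := ev_single q _ _
    rw [h1]
    have h2 : t ^ (x.2.2 + D).toNat = t ^ D * t ^ x.2.2 := by
      have h3 : (((x.2.2 + D).toNat : ℕ) : ℤ) = x.2.2 + D := by
        have := hD x hx
        omega
      rw [← zpow_natCast, h3, zpow_add₀ ht, zpow_natCast, mul_comm]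
    rw [h2]
    ring
  have hev' : ∀ (q : ℕ) (t : ℂ), ‖t‖ = 1 → eval₂ (ev q : E →+* ℂ) t f' =
      t ^ D * starRingEnd ℂ (SS s q t) := by
    intro q t ht
    have ht0 : t ≠ 0 := by
      rintro rfl
      simp at ht
    rw [hf', eval₂_finset_sum, SS, map_sum, mul_sum]
    refine sum_congr rfl fun x hx => ?_
    rw [eval₂_monomial]
    have h1 : (ev q : E →+* ℂ) (AddMonoidAlgebra.single (x.1, x.2.1) (starRingEnd ℂ (s x))) =
        starRingEnd ℂ (s x) * (((Real.exp (x.1 * q) : ℝ) : ℂ) * (q : ℂ) ^ x.2.1) :=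
      ev_single q _ _
    rw [h1]
    have hconj : starRingEnd ℂ t = t⁻¹ := by
      rw [Complex.inv_def, Complex.normSq_eq_norm_sq, ht]
      simp
    have h2 : t ^ (D - x.2.2).toNat = t ^ D * starRingEnd ℂ (t ^ x.2.2) := by
      have h3 : (((D - x.2.2).toNat : ℕ) : ℤ) = (D : ℤ) + -x.2.2 := by
        have := hD x hx
        omega
      rw [← zpow_natCast, h3, zpow_add₀ ht0, zpow_natCast, map_zpow₀, hconj, inv_zpow, zpow_neg]
    rw [h2, map_mul, map_mul, map_mul, Complex.conj_ofReal, map_pow, Complex.conj_natCast]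
    ring
  set m : ℕ := 4 * D + 1 with hm
  set v : Fin (m + 1) × Fin (m + 1) → E[X] := fun i =>
    X ^ (D * (2 * m - i.1 - i.2)) * (f ^ (i.1 : ℕ) * f' ^ (i.2 : ℕ)) with hv
  have hvd : ∀ i, (v i).natDegree ≤ 4 * D * m := by
    intro i
    have h1 : (i.1 : ℕ) ≤ m := by omega
    have h2 : (i.2 : ℕ) ≤ m := by omega
    refine natDegree_mul_le.trans ?_
    have a1 : (X ^ (D * (2 * m - i.1 - i.2)) : E[X]).natDegree ≤ D * (2 * m - i.1 - i.2) :=
      natDegree_X_pow_le _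
    have a2 : (f ^ (i.1 : ℕ) * f' ^ (i.2 : ℕ)).natDegree ≤ i.1 * (2 * D) + i.2 * (2 * D) :=
      natDegree_mul_le.trans (add_le_add
        (natDegree_pow_le.trans (Nat.mul_le_mul_left _ hfd))
        (natDegree_pow_le.trans (Nat.mul_le_mul_left _ hfd')))
    refine (add_le_add a1 a2).trans ?_
    obtain ⟨c, hc⟩ : ∃ c, 2 * m = (i.1 : ℕ) + i.2 + c := ⟨2 * m - i.1 - i.2, by omega⟩
    have e1 : 2 * m - (i.1 : ℕ) - i.2 = c := by omega
    rw [e1]
    have e2 : 4 * D * m = 2 * D * (2 * m) := by ring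
    rw [e2, hc]
    nlinarith [Nat.zero_le (D * c)]
  obtain ⟨g, hg, hsum⟩ := dependence (4 * D * m) v hvd (by
    rw [Fintype.card_prod, Fintype.card_fin, hm]
    nlinarith)
  obtain ⟨y, hy, hlim⟩ := leading g hg
  refine ⟨m, fun i q => ev q (g i) / (((Real.exp (y.1 * q) : ℝ) : ℂ) * (q : ℂ) ^ y.2),
    fun i => (g i).coeff y, hlim, hy, fun q _ t ht => ?_⟩
  have ht0 : t ≠ 0 := by
    rintro rfl
    simp at ht
  have h1 := congrArg (eval₂ (ev q : E →+* ℂ) t) hsum
  rw [eval₂_finset_sum, eval₂_zero] at h1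
  have h2 : ∀ i, eval₂ (ev q : E →+* ℂ) t (C (g i) * v i) = t ^ (D * (2 * m)) *
      (ev q (g i) * (SS s q t ^ (i.1 : ℕ) * (starRingEnd ℂ (SS s q t)) ^ (i.2 : ℕ))) := by
    intro i
    rw [hv]
    simp only
    rw [eval₂_mul, eval₂_mul, eval₂_mul, eval₂_C, eval₂_pow, eval₂_X, eval₂_pow, eval₂_pow,
      hev q t ht0, hev' q t ht, mul_pow, mul_pow]
    have e1 : t ^ (D * (2 * m)) = t ^ (D * (2 * m - i.1 - i.2)) * (t ^ D) ^ (i.1 : ℕ) *
        (t ^ D) ^ (i.2 : ℕ) := by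
      rw [← pow_mul, ← pow_mul, ← pow_add, ← pow_add, ← Nat.mul_add, ← Nat.mul_add]
      congr 2
      have h1 : (i.1 : ℕ) ≤ m := by omega
      have h2 : (i.2 : ℕ) ≤ m := by omega
      omega
    rw [e1]
    have e2 : (ev q : E →+* ℂ) (g i) = ev q (g i) := rfl
    rw [e2]
    ring
  rw [sum_congr rfl fun i _ => h2 i, ← mul_sum] at h1
  have h3 := (mul_eq_zero.1 h1).resolve_left (pow_ne_zero _ ht0)
  have h4 : ∑ i, ev q (g i) / (((Real.exp (y.1 * q) : ℝ) : ℂ) * (q : ℂ) ^ y.2) *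
      (SS s q t ^ (i.1 : ℕ) * (starRingEnd ℂ (SS s q t)) ^ (i.2 : ℕ)) =
      (∑ i, ev q (g i) * (SS s q t ^ (i.1 : ℕ) * (starRingEnd ℂ (SS s q t)) ^ (i.2 : ℕ))) /
      (((Real.exp (y.1 * q) : ℝ) : ℂ) * (q : ℂ) ^ y.2) := by
    rw [sum_div]
    refine sum_congr rfl fun i _ => ?_
    ring
  rw [h4, h3, zero_div]

end Q194.NH
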